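import Pool.Agent.W659.SA.Defs
import Pool.Agent.H901R3.MS.P_RO

/-!
ROM: few primes `p` with `p - 1` having a prime factor larger than `y^(1-η)` (port of RO by helper677).
-/

set_option autoImplicit false

namespace Pool.Agent.W440.SA.ROM

open Finset Filter Pool.Agent.Erdos456 Pool.Agent.H901R3.MS Pool.Agent.H901R3.MS.W_RO
open Pool.Agent.W659.SA (RoughM S_ROM)

/-- the sieve bound for one cofactor `m` -/
theorem one_m : ∃ C : ℝ, 0 < C ∧ ∀ m N : ℕ, 1 ≤ m → 2 ≤ N →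
    (((Icc 1 N).filter (fun n => (n + 1).Prime ∧ (m * n + (m + 1)).Prime)).card : ℝ) ≤
      C * GG m ^ 2 * N / (Real.log N) ^ 2 := by
  obtain ⟨C, hC, h⟩ := sieve_two'
  refine ⟨C, hC, fun m N hm hN => ?_⟩
  have h1 := h 1 1 m (m + 1) N one_pos hm (Nat.coprime_one_left _)
    ((Nat.coprime_self_add_right).2 (Nat.coprime_one_right m)) (by omega) hN
  have e1 : (((1 * (m + 1) : ℕ) : ℤ) - ((m * 1 : ℕ) : ℤ)).natAbs = 1 := by omega
  rw [e1] at h1
  simpa only [one_mul, mul_one] using h1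

open Classical in
theorem subset_union (η : ℝ) (y M : ℕ) (hη : 0 < η) (hy : 16 ≤ y) (hη4 : η ≤ 1 / 4)
    (hM : ∀ m : ℕ, (m : ℝ) ≤ 2 * (y : ℝ) ^ η → m ≤ M) :
    RoughM (1 - η) y ⊆ (Icc 1 M).biUnion fun m =>
      ((Icc 1 ((y + 1) / m)).filter (fun n => (n + 1).Prime ∧ (m * n + (m + 1)).Prime)).image
        (fun n => m * n + (m + 1)) := by
  intro p hp
  unfold RoughM at hp
  rw [mem_filter, mem_Icc] at hp
  obtain ⟨⟨hp1, hpy⟩, hpp, q, hq, ⟨m, hm⟩, hqF⟩ := hp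
  have hy0 : (0 : ℝ) < y := by
    have : (16 : ℝ) ≤ y := by exact_mod_cast hy
    linarith
  have hp2 := hpp.two_le
  have hm1 : 1 ≤ m := by
    rcases Nat.eq_zero_or_pos m with h0 | h0
    · rw [h0, Nat.mul_zero] at hm
      omega
    · exact h0
  have hqr : (y : ℝ) ^ (1 - η) < q := Nat.lt_of_floor_lt hqF
  have hmM : m ≤ M := by
    apply hM
    have h1 : (m : ℝ) * q ≤ 2 * y := by
      have h0 : q * m ≤ y := by omega
      have : (q : ℝ) * m ≤ y := by exact_mod_cast h0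
      nlinarith
    have h2 : (y : ℝ) ^ (1 - η) * (y : ℝ) ^ η = y := by
      rw [← Real.rpow_add hy0]
      simp
    have h3 : (0 : ℝ) < (y : ℝ) ^ (1 - η) := Real.rpow_pos_of_pos hy0 _
    have h4 : (m : ℝ) * (y : ℝ) ^ (1 - η) ≤ 2 * (y : ℝ) ^ η * (y : ℝ) ^ (1 - η) := by
      calc (m : ℝ) * (y : ℝ) ^ (1 - η) ≤ (m : ℝ) * q := by gcongr
        _ ≤ 2 * y := h1
        _ = 2 * (y : ℝ) ^ η * (y : ℝ) ^ (1 - η) := by
          rw [mul_assoc, mul_comm ((y : ℝ) ^ η), h2]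
    exact le_of_mul_le_mul_right h4 h3
  have hq2 := hq.two_le
  have hpe : m * (q - 1) + (m + 1) = p := by
    obtain ⟨k, rfl⟩ : ∃ k, q = k + 1 := ⟨q - 1, by omega⟩
    have : (k + 1) * m = m * k + m := by ring
    rw [this] at hm
    rw [Nat.add_sub_cancel]
    omega
  have hm0 : m ≠ 0 := by omega
  rw [mem_biUnion]
  refine ⟨m, mem_Icc.2 ⟨hm1, hmM⟩, ?_⟩
  rw [mem_image]
  refine ⟨q - 1, ?_, hpe⟩
  rw [mem_filter, mem_Icc]
  refine ⟨⟨by omega, ?_⟩, ?_, ?_⟩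
  · rw [Nat.le_div_iff_mul_le hm1]
    calc (q - 1) * m ≤ q * m := Nat.mul_le_mul_right m (by omega)
      _ = p - 1 := hm.symm
      _ ≤ y + 1 := by omega
  · rw [Nat.sub_add_cancel (by omega)]
    exact hq
  · rw [hpe]
    exact hpp

theorem main : Pool.Agent.W659.SA.S_ROM := by
  obtain ⟨C1, hC1, h1⟩ := one_m
  obtain ⟨C2, hC2, h2⟩ := sum_fin
  refine ⟨16 * C1 * C2, by positivity, fun η hη hη4 => ?_⟩
  obtain ⟨Y, hY⟩ : ∃ Y : ℕ, ∀ y : ℕ, Y ≤ y → 2 / η ≤ Real.log y := by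
    have := (Real.tendsto_log_atTop.comp tendsto_natCast_atTop_atTop).eventually_ge_atTop (2 / η)
    obtain ⟨Y, hY⟩ := eventually_atTop.1 this
    exact ⟨Y, fun y hy => hY y hy⟩
  refine ⟨max Y 256, fun y hy => ?_⟩
  have hyY : Y ≤ y := (le_max_left _ _).trans hy
  have hy256 : 256 ≤ y := (le_max_right _ _).trans hy
  have hyr : (256 : ℝ) ≤ y := by exact_mod_cast hy256
  have hy0 : (0 : ℝ) < y := by linarith
  have hlog : 2 / η ≤ Real.log y := hY y hyY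
  have hlog0 : 0 < Real.log y := lt_of_lt_of_le (by positivity) hlog
  obtain ⟨M, hMdef⟩ : ∃ M : ℕ, M = ⌊2 * (y : ℝ) ^ η⌋₊ := ⟨_, rfl⟩
  have hyη1 : (1 : ℝ) ≤ (y : ℝ) ^ η := Real.one_le_rpow (by linarith) hη.le
  have hMle : (M : ℝ) ≤ 2 * (y : ℝ) ^ η := by
    rw [hMdef]
    exact Nat.floor_le (by positivity)
  have hM1 : 1 ≤ M := by
    rw [hMdef]
    apply Nat.le_floor
    push_cast
    linarith
  have hsub := subset_union η y M hη (by omega) hη4 (fun m hm => by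
    rw [hMdef]
    exact Nat.le_floor hm)
  have hcard : ((RoughM (1 - η) y).card : ℝ) ≤ ∑ m ∈ Icc 1 M,
      (((Icc 1 ((y + 1) / m)).filter
        (fun n => (n + 1).Prime ∧ (m * n + (m + 1)).Prime)).card : ℝ) := by
    have h3 := (card_le_card hsub).trans card_biUnion_le
    have h4 : (RoughM (1 - η) y).card ≤ ∑ m ∈ Icc 1 M,
      ((Icc 1 ((y + 1) / m)).filter
        (fun n => (n + 1).Prime ∧ (m * n + (m + 1)).Prime)).card :=
      h3.trans (sum_le_sum fun m _ => card_image_le)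
    exact_mod_cast h4
  have hterm : ∀ m ∈ Icc 1 M, (((Icc 1 ((y + 1) / m)).filter
        (fun n => (n + 1).Prime ∧ (m * n + (m + 1)).Prime)).card : ℝ) ≤
        8 * C1 * (y / Real.log y ^ 2) * (GG m ^ 2 * (m : ℝ)⁻¹) := by
    intro m hm
    rw [mem_Icc] at hm
    have hm4 : (m : ℝ) ≤ 2 * (y : ℝ) ^ ((1 : ℝ) / 4) := by
      calc (m : ℝ) ≤ M := by exact_mod_cast hm.2
        _ ≤ 2 * (y : ℝ) ^ η := hMle
        _ ≤ 2 * (y : ℝ) ^ ((1 : ℝ) / 4) := by
          have : (y : ℝ) ^ η ≤ (y : ℝ) ^ ((1 : ℝ) / 4) :=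
            Real.rpow_le_rpow_of_exponent_le (by linarith) hη4
          linarith
    obtain ⟨hN2, hNlog, hNle⟩ := size_N y m hy256 hm.1 hm4
    have h3 := h1 m ((y + 1) / m) hm.1 hN2
    have hNl0 : 0 < Real.log (((y + 1) / m : ℕ) : ℝ) := lt_of_lt_of_le (by positivity) hNlog
    have h4 : (Real.log y / 2) ^ 2 ≤ Real.log (((y + 1) / m : ℕ) : ℝ) ^ 2 := by gcongr
    calc (((Icc 1 ((y + 1) / m)).filter
        (fun n => (n + 1).Prime ∧ (m * n + (m + 1)).Prime)).card : ℝ)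
        ≤ C1 * GG m ^ 2 * (((y + 1) / m : ℕ) : ℝ) / Real.log (((y + 1) / m : ℕ) : ℝ) ^ 2 := h3
      _ ≤ C1 * GG m ^ 2 * (2 * y * (m : ℝ)⁻¹) / (Real.log y / 2) ^ 2 := by gcongr
      _ = 8 * C1 * (y / Real.log y ^ 2) * (GG m ^ 2 * (m : ℝ)⁻¹) := by
        field_simp
        ring
  have hlogM : 1 + Real.log M ≤ 2 * η * Real.log y := by
    have h3 : Real.log M ≤ Real.log 2 + η * Real.log y := by
      have hM0 : (0 : ℝ) < M := by exact_mod_cast hM1
      calc Real.log M ≤ Real.log (2 * (y : ℝ) ^ η) := Real.log_le_log hM0 hMle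
        _ = Real.log 2 + η * Real.log y := by
          rw [Real.log_mul (by norm_num) (by positivity), Real.log_rpow hy0]
    have h4 : 2 ≤ η * Real.log y := by
      rw [div_le_iff₀ hη] at hlog
      linarith
    have h5 : Real.log 2 < 1 := by
      have := Real.log_two_lt_d9
      linarith
    linarith
  calc ((RoughM (1 - η) y).card : ℝ) ≤ _ := hcard
    _ ≤ ∑ m ∈ Icc 1 M, 8 * C1 * (y / Real.log y ^ 2) * (GG m ^ 2 * (m : ℝ)⁻¹) :=
      sum_le_sum hterm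
    _ = 8 * C1 * (y / Real.log y ^ 2) * ∑ m ∈ Icc 1 M, GG m ^ 2 * (m : ℝ)⁻¹ := by
      rw [mul_sum]
    _ ≤ 8 * C1 * (y / Real.log y ^ 2) * (C2 * (1 + Real.log M)) := by
      gcongr
      exact h2 M
    _ ≤ 8 * C1 * (y / Real.log y ^ 2) * (C2 * (2 * η * Real.log y)) := by
      gcongr
    _ = 16 * C1 * C2 * η * (y / Real.log y) := by
      field_simp
      ring

end Pool.Agent.W440.SA.ROM
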