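import Pool.Agent.W659.SA.Defs

/-!
TRZ: transfer of the hypothesis that the specialisations are not all zero.
-/

set_option autoImplicit false

namespace Pool.Agent.W440.SA.TRZ

open MvPolynomial NumberField Pool.Agent.W659.SA Pool.Agent.W659.FD

/-- the generic specialisation with values in a commutative ring -/
noncomputable def gsp {O A : Type} [CommRing O] [CommRing A] (φ : O →+* A) {r s n : ℕ}
    (F : Pol O r s n) (V : Fin r × Fin 3 → A) (u : Fin s → A) : MvPolynomial (Fin n) A :=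
  eval₂ (C.comp φ) (Sum.elim (fun ij => C (V ij)) (Sum.elim (fun l => C (u l)) X)) F

lemma map_gsp {O A B : Type} [CommRing O] [CommRing A] [CommRing B] (φ : O →+* A) (ψ : A →+* B)
    {r s n : ℕ} (F : Pol O r s n) (V : Fin r × Fin 3 → A) (u : Fin s → A) :
    MvPolynomial.map ψ (gsp φ F V u) =
      gsp (ψ.comp φ) F (fun ij => ψ (V ij)) (fun l => ψ (u l)) := by
  unfold gsp
  induction F using MvPolynomial.induction_on with
  | C a => simp
  | add p q hp hq => rw [eval₂_add, map_add, eval₂_add, hp, hq]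
  | mul_X p i hp =>
    rw [eval₂_mul, map_mul, eval₂_mul, hp, eval₂_X, eval₂_X]
    congr 1
    rcases i with ij | l | k <;> simp

lemma spc_eq {O k : Type} [CommRing O] [CommRing k] (φ : O →+* k) {r s n : ℕ}
    (F : Pol O r s n) (V : Fin r → Fin 3 → k) (u : Fin s → k) :
    spc φ F V u = gsp φ F (fun ij => V ij.1 ij.2) u := rfl

/-- the unknowns -/
abbrev Vars (r s : ℕ) : Type := ((Fin r × Fin 3) ⊕ (Fin r × Fin 3)) ⊕ (Fin s ⊕ Fin s)

/-- the system of equations -/
noncomputable def eqs {O : Type} [CommRing O] {r s n : ℕ} (a b : Fin r → ℤ) {J : Type}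
    (G : J → Pol O r s n) : Set (MvPolynomial (Vars r s) O) :=
  {f | (∃ i, f = X (Sum.inl (Sum.inl (i, 1))) ^ 2 * X (Sum.inl (Sum.inl (i, 2))) -
        (X (Sum.inl (Sum.inl (i, 0))) ^ 3 +
          (a i : MvPolynomial (Vars r s) O) * X (Sum.inl (Sum.inl (i, 0))) *
            X (Sum.inl (Sum.inl (i, 2))) ^ 2 +
          (b i : MvPolynomial (Vars r s) O) * X (Sum.inl (Sum.inl (i, 2))) ^ 3)) ∨
    (∃ i, f = ∑ j, X (Sum.inl (Sum.inl (i, j))) * X (Sum.inl (Sum.inr (i, j))) - 1) ∨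
    (∃ l, f = X (Sum.inr (Sum.inl l)) * X (Sum.inr (Sum.inr l)) - 1) ∨
    ∃ j, ∃ β, f = coeff β (gsp C (G j) (fun ij => X (Sum.inl (Sum.inl ij)))
      (fun l => X (Sum.inr (Sum.inl l))))}

lemma sys_iff {O k : Type} [CommRing O] [CommRing k] (φ : O →+* k) {r s n : ℕ}
    (a b : Fin r → ℤ) {J : Type} (G : J → Pol O r s n) (x : Vars r s → k) :
    (∀ f ∈ Ideal.span (eqs a b G), eval₂ φ x f = 0) ↔
      (∀ i, x (Sum.inl (Sum.inl (i, 1))) ^ 2 * x (Sum.inl (Sum.inl (i, 2))) =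
        x (Sum.inl (Sum.inl (i, 0))) ^ 3 + a i * x (Sum.inl (Sum.inl (i, 0))) *
            x (Sum.inl (Sum.inl (i, 2))) ^ 2 + b i * x (Sum.inl (Sum.inl (i, 2))) ^ 3) ∧
      (∀ i, ∑ j, x (Sum.inl (Sum.inl (i, j))) * x (Sum.inl (Sum.inr (i, j))) = 1) ∧
      (∀ l, x (Sum.inr (Sum.inl l)) * x (Sum.inr (Sum.inr l)) = 1) ∧
      ∀ j, gsp φ (G j) (fun ij => x (Sum.inl (Sum.inl ij))) (fun l => x (Sum.inr (Sum.inl l))) =
        0 := by
  have key : ∀ j β, eval₂ φ x (coeff β (gsp C (G j) (fun ij => X (Sum.inl (Sum.inl ij)))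
      (fun l => X (Sum.inr (Sum.inl l))))) =
      coeff β (gsp φ (G j) (fun ij => x (Sum.inl (Sum.inl ij)))
        (fun l => x (Sum.inr (Sum.inl l)))) := by
    intro j β
    have h1 := map_gsp (C : O →+* MvPolynomial (Vars r s) O) (eval₂Hom φ x) (G j)
      (fun ij => X (Sum.inl (Sum.inl ij))) (fun l => X (Sum.inr (Sum.inl l)))
    have h2 : (eval₂Hom φ x).comp (C : O →+* MvPolynomial (Vars r s) O) = φ := by
      ext z
      simp
    rw [h2] at h1
    simp only [coe_eval₂Hom, eval₂_X] at h1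
    rw [← h1, coeff_map]
    rfl
  constructor
  · intro h
    refine ⟨fun i => ?_, fun i => ?_, fun l => ?_, fun j => ?_⟩
    · have h1 := h _ (Ideal.subset_span (Or.inl ⟨i, rfl⟩))
      rw [← coe_eval₂Hom] at h1
      simp only [map_sub, map_add, map_mul, map_pow, map_intCast, coe_eval₂Hom, eval₂_X] at h1
      exact sub_eq_zero.1 h1
    · have h1 := h _ (Ideal.subset_span (Or.inr (Or.inl ⟨i, rfl⟩)))
      rw [← coe_eval₂Hom] at h1
      simp only [map_sub, map_sum, map_mul, map_one, coe_eval₂Hom, eval₂_X] at h1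
      exact sub_eq_zero.1 h1
    · have h1 := h _ (Ideal.subset_span (Or.inr (Or.inr (Or.inl ⟨l, rfl⟩))))
      rw [← coe_eval₂Hom] at h1
      simp only [map_sub, map_mul, map_one, coe_eval₂Hom, eval₂_X] at h1
      exact sub_eq_zero.1 h1
    · ext β
      rw [← key j β, coeff_zero]
      exact h _ (Ideal.subset_span (Or.inr (Or.inr (Or.inr ⟨j, β, rfl⟩))))
  · rintro ⟨h1, h2, h3, h4⟩ f hf
    have hle : Ideal.span (eqs a b G) ≤ RingHom.ker (eval₂Hom φ x) := by
      rw [Ideal.span_le]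
      rintro f (⟨i, rfl⟩ | ⟨i, rfl⟩ | ⟨l, rfl⟩ | ⟨j, β, rfl⟩)
      · rw [SetLike.mem_coe, RingHom.mem_ker]
        simp only [map_sub, map_add, map_mul, map_pow, map_intCast, coe_eval₂Hom, eval₂_X]
        rw [h1 i, sub_self]
      · rw [SetLike.mem_coe, RingHom.mem_ker]
        simp only [map_sub, map_sum, map_mul, map_one, coe_eval₂Hom, eval₂_X]
        rw [h2 i, sub_self]
      · rw [SetLike.mem_coe, RingHom.mem_ker]
        simp only [map_sub, map_mul, map_one, coe_eval₂Hom, eval₂_X]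
        rw [h3 l, sub_self]
      · rw [SetLike.mem_coe, RingHom.mem_ker, coe_eval₂Hom, key j β, h4 j, coeff_zero]
    exact hle hf

theorem main : Pool.Agent.W659.SA.S_TRK → Pool.Agent.W659.SA.S_TRZ := by
  intro hT K _ _ r s n a b J _ G σ hG
  by_contra hcon
  push Not at hcon
  obtain ⟨x, hx⟩ := hT K (Vars r s) (Ideal.span (eqs a b G)) (by
    intro N
    obtain ⟨p, hp, hNp, k, hk, hc, φ, V, u, hV, hu, hz⟩ := hcon N
    refine ⟨p, hp, hNp, k, hk, hc, φ, ?_⟩
    have hW : ∀ i, ∃ W : Fin 3 → k, ∑ j, V i j * W j = 1 := by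
      intro i
      obtain ⟨j, hj⟩ := Function.ne_iff.1 (hV i).1
      refine ⟨Pi.single j (V i j)⁻¹, ?_⟩
      rw [Finset.sum_eq_single j]
      · rw [Pi.single_eq_same]
        exact mul_inv_cancel₀ hj
      · intro k _ hk
        rw [Pi.single_eq_of_ne hk, mul_zero]
      · intro h
        exact absurd (Finset.mem_univ j) h
    choose W hW using hW
    refine ⟨Sum.elim (Sum.elim (fun ij => V ij.1 ij.2) (fun ij => W ij.1 ij.2))
      (Sum.elim u (fun l => (u l)⁻¹)), ?_⟩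
    rw [sys_iff]
    refine ⟨fun i => ?_, fun i => ?_, fun l => ?_, fun j => ?_⟩
    · exact (hV i).2
    · exact hW i
    · exact mul_inv_cancel₀ (hu l)
    · exact hz j) σ
  rw [sys_iff] at hx
  obtain ⟨h1, h2, h3, h4⟩ := hx
  obtain ⟨j, hj⟩ := hG (fun i j => x (Sum.inl (Sum.inl (i, j)))) (fun l => x (Sum.inr (Sum.inl l)))
    (fun i => ⟨by
      intro h0
      have h5 := h2 i
      have h6 : ∀ j, x (Sum.inl (Sum.inl (i, j))) = 0 := fun j => congrFun h0 j
      simp [h6] at h5, h1 i⟩)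
    (fun l h0 => by
      have h5 := h3 l
      rw [h0, zero_mul] at h5
      exact zero_ne_one h5)
  exact hj (h4 j)

end Pool.Agent.W440.SA.TRZ
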